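import Pool.Agent.W398.SG.Stm

/-! Project SG: the factors of the closed lower central series. -/

set_option autoImplicit false

namespace Pool.Agent.W800.SG.Fac

open Pool.Agent.W37.SG Pool.Agent.W398.SG
open scoped Matrix commutatorElement

universe u

theorem bddmax (f : ℕ → ℕ) (r : ℕ) (hf : ∀ i, f i ≤ r) : ∃ i₀, ∀ i, f i ≤ f i₀ := by
  have hb : BddAbove (Set.range f) := ⟨r, by rintro _ ⟨i, rfl⟩; exact hf i⟩
  have hm := Nat.sSup_mem (Set.range_nonempty f) hb
  obtain ⟨i₀, hi₀⟩ := hm
  exact ⟨i₀, fun i => by rw [hi₀]; exact le_csSup hb ⟨i, rfl⟩⟩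

theorem main : S_GAM.{u} → S_NIL.{u} → S_FAC.{u} := by
  intro hGAM hNIL p _ R _ _ _ hinf hprop hfc
  have hp : p.Prime := Fact.out
  obtain ⟨g1, g2, g3⟩ := hGAM R
  obtain ⟨r, hr⟩ := hfc
  have hcomp := hprop.compact
  have ht2 := hprop.t2
  have hdisc := hprop.disc
  set N := gammaBar R with hN
  have hcl : ∀ i, IsClosed (N i : Set R) := fun i => Subgroup.isClosed_topologicalClosure _
  have hanti : Antitone N := antitone_nat_of_succ_le g1
  have hidx : ∀ i, (N i).index ≠ 0 := by
    intro i
    obtain ⟨c, _, hc, _⟩ := hr i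
    exact hc
  have hopen : ∀ i, IsOpen (N i : Set R) := by
    intro i
    have : (N i).FiniteIndex := ⟨hidx i⟩
    exact Subgroup.isOpen_of_isClosed_of_finiteIndex _ (hcl i)
  refine ⟨hopen, ?_⟩
  have hpi : ∀ i, ∃ n : ℕ, (N i).index = p ^ n := fun i =>
    hprop.pindex (N i) (gammaBar_normal R i) (hopen i)
  choose e he using hpi
  -- bound
  have hbound : ∀ i, e i ≤ i + r := by
    intro i
    obtain ⟨c, hc1, _, hc3⟩ := hr i
    have h1 : (⊤ : Subgroup (R ⧸ N i)).lowerCentralSeries i = ⊥ := by
      have h2 := Subgroup.map_lowerCentralSeries (⊤ : Subgroup R) (QuotientGroup.mk' (N i)) i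
      have h3 : (⊤ : Subgroup R).map (QuotientGroup.mk' (N i)) = ⊤ :=
        Subgroup.map_top_of_surjective _ (QuotientGroup.mk'_surjective (N i))
      rw [h3] at h2
      rw [← h2, Subgroup.map_eq_bot_iff, QuotientGroup.ker_mk']
      exact Subgroup.le_topologicalClosure _
    have h4 : c ≤ i := hc1.2 h1
    have h5 : p ^ e i ≤ p ^ (i + r) := by
      calc p ^ e i = (N i).index := (he i).symm
        _ = Nat.card (R ⧸ N i) := rfl
        _ ≤ p ^ (c + r) := hc3
        _ ≤ p ^ (i + r) := Nat.pow_le_pow_right hp.pos (by omega)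
    exact (Nat.pow_le_pow_iff_right hp.one_lt).1 h5
  -- strictness
  have hne : ∀ i, N (i + 1) ≠ N i := by
    intro i hi
    have hconst : ∀ j, N (i + j + 1) = N (i + j) := by
      intro j
      induction j with
      | zero => exact hi
      | succ j ih =>
        apply le_antisymm (g1 _)
        have h1 : N (i + j + 1) ≤ N (i + j + 1 + 1) := by
          apply g3 (i + j) _ (hcl _)
          intro x hx s
          rw [← ih] at hx
          exact g2 _ x hx s
        exact h1
    have hconst2 : ∀ j, N (i + j) = N i := by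
      intro j
      induction j with
      | zero => rfl
      | succ j ih => rw [← ih]; exact hconst j
    have hbot : N i = ⊥ := by
      rw [eq_bot_iff]
      intro x hx
      rw [Subgroup.mem_bot]
      by_contra hx1
      obtain ⟨U, hU⟩ := ProfiniteGrp.exist_openNormalSubgroup_sub_open_nhds_of_one
        (isOpen_compl_singleton (x := x)) (by simpa using (Ne.symm hx1))
      obtain ⟨k, hk⟩ := hNIL p R hprop U.toSubgroup U.isNormal' U.isOpen'
      have h2 : x ∈ N k := by
        rcases le_total i k with h | h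
        · obtain ⟨j, rfl⟩ := Nat.exists_eq_add_of_le h
          rw [hconst2]
          exact hx
        · exact hanti h hx
      have h3 : x ∈ ({x}ᶜ : Set R) := hU (hk h2)
      exact h3 rfl
    apply hidx i
    rw [hbot, Subgroup.index_bot]
    exact Nat.card_eq_zero_of_infinite
  have hrel : ∀ i, (N (i + 1)).relIndex (N i) * p ^ e i = p ^ e (i + 1) := by
    intro i
    rw [← he, ← he]
    exact Subgroup.relIndex_mul_index (g1 i)
  have hlt : ∀ i, e i < e (i + 1) := by
    intro i
    have h1 := hrel i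
    have h2 : (N (i + 1)).relIndex (N i) ≠ 1 := by
      intro h
      rw [Subgroup.relIndex_eq_one] at h
      exact hne i (le_antisymm (g1 i) h)
    have h3 : (N (i + 1)).relIndex (N i) ≠ 0 := by
      intro h
      rw [h, zero_mul] at h1
      exact (pow_ne_zero _ hp.ne_zero) h1.symm
    have h4 : 2 ≤ (N (i + 1)).relIndex (N i) := by omega
    have h5 : p ^ e i < p ^ e (i + 1) := by
      rw [← h1]
      have : 0 < p ^ e i := pow_pos hp.pos _
      nlinarith
    exact (Nat.pow_lt_pow_iff_right hp.one_lt).1 h5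
  have hge : ∀ i, i ≤ e i := by
    intro i
    induction i with
    | zero => exact Nat.zero_le _
    | succ i ih => have := hlt i; omega
  obtain ⟨i₀, hi₀⟩ := bddmax (fun i => e i - i) r (fun i => by have := hbound i; omega)
  have hmono : ∀ j, e i₀ - i₀ ≤ e (i₀ + j) - (i₀ + j) := by
    intro j
    induction j with
    | zero => exact le_refl _
    | succ j ih =>
      have h1 := hlt (i₀ + j)
      have h2 := hge (i₀ + j)
      have h3 : i₀ + (j + 1) = i₀ + j + 1 := rfl
      rw [h3]
      omega
  have hstep : ∀ i, i₀ ≤ i → e (i + 1) = e i + 1 := by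
    intro i hi
    obtain ⟨j, rfl⟩ := Nat.exists_eq_add_of_le hi
    have h1 := hmono j
    have h2 := hmono (j + 1)
    have h3 := hi₀ (i₀ + j)
    have h4 := hi₀ (i₀ + j + 1)
    have h5 := hge (i₀ + j)
    have h6 := hge (i₀ + j + 1)
    have h7 : i₀ + (j + 1) = i₀ + j + 1 := rfl
    rw [h7] at h2
    omega
  refine ⟨i₀, fun i hi H hH1 hH2 => ?_⟩
  have h1 := hrel i
  rw [hstep i hi, pow_succ, mul_comm] at h1
  have h2 : (N (i + 1)).relIndex (N i) = p := Nat.eq_of_mul_eq_mul_left (pow_pos hp.pos _) h1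
  have h3 := Subgroup.relIndex_mul_relIndex (N (i + 1)) H (N i) hH1 hH2
  rw [h2] at h3
  have h4 : H.relIndex (N i) ∣ p := ⟨_, by rw [mul_comm]; exact h3.symm⟩
  rcases (Nat.dvd_prime hp).1 h4 with h5 | h5
  · right
    rw [Subgroup.relIndex_eq_one] at h5
    exact le_antisymm hH2 h5
  · left
    rw [h5] at h3
    have h6 : (N (i + 1)).relIndex H = 1 := by
      have : (N (i + 1)).relIndex H * p = 1 * p := by rw [h3, one_mul]
      exact Nat.eq_of_mul_eq_mul_right hp.pos this
    rw [Subgroup.relIndex_eq_one] at h6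
    exact le_antisymm h6 hH1

end Pool.Agent.W800.SG.Fac
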