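import Pool.Agent.W398.SG.Stm

/-! Project SG: uniseriality of the conjugation action. -/

set_option autoImplicit false

namespace Pool.Agent.W800.SG.Uni

open Pool.Agent.W37.SG Pool.Agent.W398.SG
open scoped Matrix commutatorElement Topology

universe u

theorem lat_open {p d : ℕ} [Fact p.Prime] (M : Submodule ℤ_[p] (Lat p d)) (n : ℕ)
    (hM : ∀ x : Lat p d, (p : ℤ_[p]) ^ n • x ∈ M) : IsOpen (M : Set (Lat p d)) := by
  have hp : p.Prime := Fact.out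
  have hpos : (0 : ℝ) < (p : ℝ) ^ (-(n : ℤ)) := by
    have : (0 : ℝ) < p := by exact_mod_cast hp.pos
    positivity
  have h0 : (M : Set (Lat p d)) ∈ 𝓝 (0 : Lat p d) := by
    refine Filter.mem_of_superset (Metric.ball_mem_nhds (0 : Lat p d) hpos) ?_
    intro x hx
    rw [mem_ball_zero_iff] at hx
    have h1 : ∀ i, ∃ y : ℤ_[p], x i = (p : ℤ_[p]) ^ n * y := by
      intro i
      have h2 : ‖x i‖ ≤ (p : ℝ) ^ (-(n : ℤ)) := ((norm_le_pi_norm x i).trans_lt hx).le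
      have h3 := (PadicInt.norm_le_pow_iff_mem_span_pow (x i) n).1 h2
      obtain ⟨y, hy⟩ := Ideal.mem_span_singleton'.1 h3
      exact ⟨y, by rw [← hy, mul_comm]⟩
    choose y hy using h1
    have h4 : x = (p : ℤ_[p]) ^ n • y := by
      funext i
      rw [hy i, Pi.smul_apply, smul_eq_mul]
    rw [h4]
    exact hM y
  exact M.toAddSubgroup.isOpen_of_mem_nhds (g := (0 : Lat p d)) h0

theorem pow_small {p d : ℕ} [Fact p.Prime] (W : Set (Lat p d)) (hW : IsOpen W)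
    (h0 : (0 : Lat p d) ∈ W) : ∃ m : ℕ, ∀ x : Lat p d, (p : ℤ_[p]) ^ m • x ∈ W := by
  obtain ⟨ε, hε, hb⟩ := Metric.isOpen_iff.1 hW 0 h0
  obtain ⟨m, hm⟩ := PadicInt.exists_pow_neg_lt p hε
  refine ⟨m, fun x => hb ?_⟩
  rw [mem_ball_zero_iff]
  refine lt_of_le_of_lt ?_ hm
  have hp : p.Prime := Fact.out
  have hpos : (0 : ℝ) ≤ (p : ℝ) ^ (-(m : ℤ)) := by
    have : (0 : ℝ) < p := by exact_mod_cast hp.pos
    positivity
  rw [pi_norm_le_iff_of_nonneg hpos]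
  intro i
  rw [Pi.smul_apply, smul_eq_mul, norm_mul, PadicInt.norm_p_pow]
  calc (p : ℝ) ^ (-(m : ℤ)) * ‖x i‖ ≤ (p : ℝ) ^ (-(m : ℤ)) * 1 :=
        mul_le_mul_of_nonneg_left (PadicInt.norm_le_one _) hpos
    _ = _ := mul_one _

/-- the subgroup of `R` attached to a sublattice -/
def HS {p d : ℕ} [Fact p.Prime] {R : Type u} [Group R] [TopologicalSpace R] {T : Subgroup R}
    (e : T ≃ₜ* Multiplicative (Fin d → ℤ_[p])) (M : Submodule ℤ_[p] (Lat p d)) : Subgroup R where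
  carrier := {x | ∃ t : T, Multiplicative.toAdd (e t) ∈ M ∧ (t : R) = x}
  one_mem' := ⟨1, by rw [map_one, toAdd_one]; exact M.zero_mem, rfl⟩
  mul_mem' := by
    rintro _ _ ⟨a, ha, rfl⟩ ⟨b, hb, rfl⟩
    exact ⟨a * b, by rw [map_mul, toAdd_mul]; exact M.add_mem ha hb, rfl⟩
  inv_mem' := by
    rintro _ ⟨a, ha, rfl⟩
    exact ⟨a⁻¹, by rw [map_inv, toAdd_inv]; exact M.neg_mem ha, rfl⟩

theorem HS_normal {p d : ℕ} [Fact p.Prime] {R : Type u} [Group R] [TopologicalSpace R]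
    {T : Subgroup R} [T.Normal] (e : T ≃ₜ* Multiplicative (Fin d → ℤ_[p])) (ρ : R →* Mat p d)
    (hc : IsConj p T e ρ) (M : Submodule ℤ_[p] (Lat p d))
    (hM : ∀ r : R, ∀ x ∈ M, ρ r *ᵥ x ∈ M) : (HS e M).Normal := by
  constructor
  rintro _ ⟨t, ht, rfl⟩ r
  have h1 : r * t * r⁻¹ ∈ T := (inferInstance : T.Normal).conj_mem t t.2 r
  refine ⟨⟨r * t * r⁻¹, h1⟩, ?_, rfl⟩
  rw [hc r t ⟨r * t * r⁻¹, h1⟩ rfl]
  exact hM r _ ht

theorem HS_open {p d : ℕ} [Fact p.Prime] {R : Type u} [Group R] [TopologicalSpace R]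
    {T : Subgroup R} (e : T ≃ₜ* Multiplicative (Fin d → ℤ_[p])) (hT : IsOpen (T : Set R))
    (M : Submodule ℤ_[p] (Lat p d)) (n : ℕ) (hM : ∀ x : Lat p d, (p : ℤ_[p]) ^ n • x ∈ M) :
    IsOpen (HS e M : Set R) := by
  have h1 : IsOpen {t : T | Multiplicative.toAdd (e t) ∈ (M : Set (Lat p d))} :=
    (lat_open M n hM).preimage (continuous_toAdd.comp e.continuous)
  exact hT.isOpenMap_subtype_val _ h1

theorem main : S_CHAIN.{u} → S_UNI.{u} := by
  intro hCH p _ d R _ _ _ T _ e ρ hd hprop hfc hT hconj L L' hL hL' hn hn'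
  have hp : p.Prime := Fact.out
  have hf : Function.Injective (fun v : Lat p d => ((e.symm (Multiplicative.ofAdd v) : T) : R)) := by
    intro v w hvw
    have h1 : e.symm (Multiplicative.ofAdd v) = e.symm (Multiplicative.ofAdd w) :=
      Subtype.ext hvw
    exact Multiplicative.ofAdd.injective (e.symm.injective h1)
  have hinf : Infinite R := by
    have : Infinite (Lat p d) := Pi.infinite_of_exists_right (⟨0, hd⟩ : Fin d)
    exact Infinite.of_injective _ hf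
  obtain ⟨U, hU, hch⟩ := hCH p R hinf hprop hfc
  have hcs : Continuous (fun v : Lat p d => ((e.symm (Multiplicative.ofAdd v) : T) : R)) :=
    continuous_subtype_val.comp (e.symm.continuous.comp continuous_ofAdd)
  obtain ⟨m, hm⟩ := pow_small _ (hU.preimage hcs) (by
    show ((e.symm (Multiplicative.ofAdd 0) : T) : R) ∈ (U : Set R)
    rw [ofAdd_zero, map_one]
    exact U.one_mem)
  -- the dilated lattice
  let D : Submodule ℤ_[p] (Lat p d) → Submodule ℤ_[p] (Lat p d) := fun M =>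
    M.map (LinearMap.lsmul ℤ_[p] (Lat p d) ((p : ℤ_[p]) ^ m))
  have hDm : ∀ M : Submodule ℤ_[p] (Lat p d), ∀ y : Lat p d, y ∈ D M ↔
      ∃ x ∈ M, (p : ℤ_[p]) ^ m • x = y := by
    intro M y
    exact Submodule.mem_map
  have hpm : ((p : ℤ_[p]) ^ m) ≠ 0 := by
    apply pow_ne_zero
    exact_mod_cast hp.ne_zero
  have hinj : ∀ x y : Lat p d, (p : ℤ_[p]) ^ m • x = (p : ℤ_[p]) ^ m • y → x = y := by
    intro x y hxy
    funext i
    have h1 := congrFun hxy i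
    simp only [Pi.smul_apply, smul_eq_mul] at h1
    exact mul_left_cancel₀ hpm h1
  have hinv : ∀ M : Submodule ℤ_[p] (Lat p d), (∀ r : R, ∀ x ∈ M, ρ r *ᵥ x ∈ M) →
      ∀ r : R, ∀ x ∈ D M, ρ r *ᵥ x ∈ D M := by
    intro M hM r y hy
    obtain ⟨x, hx, rfl⟩ := (hDm M y).1 hy
    rw [Matrix.mulVec_smul]
    exact (hDm M _).2 ⟨_, hM r x hx, rfl⟩
  have hcont : ∀ M : Submodule ℤ_[p] (Lat p d),
      (∃ n : ℕ, ∀ x : Fin d → ℤ_[p], (p : ℤ_[p]) ^ n • x ∈ M) →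
      ∃ n : ℕ, ∀ x : Fin d → ℤ_[p], (p : ℤ_[p]) ^ n • x ∈ D M := by
    rintro M ⟨n, hn⟩
    refine ⟨m + n, fun x => (hDm M _).2 ⟨(p : ℤ_[p]) ^ n • x, hn x, ?_⟩⟩
    rw [smul_smul, pow_add]
  have hle : ∀ M : Submodule ℤ_[p] (Lat p d), HS e (D M) ≤ U := by
    rintro M _ ⟨t, ht, rfl⟩
    obtain ⟨x, _, hx⟩ := (hDm M _).1 ht
    have h1 := hm x
    have h2 : ((e.symm (Multiplicative.ofAdd ((p : ℤ_[p]) ^ m • x)) : T) : R) ∈ U := h1
    rw [hx, ofAdd_toAdd, ContinuousMulEquiv.symm_apply_apply] at h2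
    exact h2
  have hcmp : ∀ M M' : Submodule ℤ_[p] (Lat p d), HS e (D M) ≤ HS e (D M') → M ≤ M' := by
    intro M M' hMM x hx
    have h1 : ((e.symm (Multiplicative.ofAdd ((p : ℤ_[p]) ^ m • x)) : T) : R) ∈ HS e (D M) :=
      ⟨_, by
        rw [ContinuousMulEquiv.apply_symm_apply, toAdd_ofAdd]
        exact (hDm M _).2 ⟨x, hx, rfl⟩, rfl⟩
    obtain ⟨t', ht', htt⟩ := hMM h1
    have h2 : t' = e.symm (Multiplicative.ofAdd ((p : ℤ_[p]) ^ m • x)) := Subtype.ext htt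
    rw [h2, ContinuousMulEquiv.apply_symm_apply, toAdd_ofAdd] at ht'
    obtain ⟨y, hy, hxy⟩ := (hDm M' _).1 ht'
    rw [← hinj y x hxy]
    exact hy
  obtain ⟨n, hn1⟩ := hcont L hn
  obtain ⟨n', hn1'⟩ := hcont L' hn'
  rcases hch (HS e (D L)) (HS e (D L')) (HS_normal e ρ hconj _ (hinv L hL))
    (HS_normal e ρ hconj _ (hinv L' hL')) (HS_open e hT _ n hn1) (HS_open e hT _ n' hn1')
    (hle L) (hle L') with h | h
  · exact Or.inl (hcmp _ _ h)
  · exact Or.inr (hcmp _ _ h)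

end Pool.Agent.W800.SG.Uni
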